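import Pool.Agent.Helper20.QD.St2

/-! QD-B MODULE RHU (project QD part B, MP_d112a4_gt): the theorem of Hurwitz. -/

set_option autoImplicit false

open Filter Topology Matrix Set Metric
open scoped ComplexConjugate ComplexOrder

namespace Pool.Agent.Helper36.QD

open Pool.Agent.Helper35.PM Pool.Agent.Helper20.QD

/-- Hurwitz: a locally uniform limit of injective holomorphic functions on a preconnected open
set is injective or constant. -/
theorem hRHU : StRHU := by
  intro U F f hU hpre hF hinj hlim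
  by_cases hfi : InjOn f U
  · exact Or.inl hfi
  right
  have hfd : DifferentiableOn ℂ f U := hlim.differentiableOn (Eventually.of_forall hF) hU
  rw [InjOn] at hfi
  push Not at hfi
  obtain ⟨z1, h1U, z2, h2U, hfe, hne⟩ := hfi
  refine ⟨f z1, fun z hz => ?_⟩
  have hgd : DifferentiableOn ℂ (fun z => f z - f z1) U := hfd.sub (differentiableOn_const _)
  have hga : AnalyticOnNhd ℂ (fun z => f z - f z1) U := hgd.analyticOnNhd hU
  rcases (hga z2 h2U).eventually_eq_zero_or_eventually_ne_zero with h | h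
  · have h2 := hga.eqOn_zero_of_preconnected_of_eventuallyEq_zero hpre h2U h hz
    exact sub_eq_zero.1 h2
  exfalso
  have h3 : ∀ᶠ z in 𝓝 z2, z ≠ z2 → f z - f z1 ≠ 0 := eventually_nhdsWithin_iff.1 h
  obtain ⟨r0, hr0, hb⟩ := Metric.eventually_nhds_iff_ball.1 (h3.and (hU.mem_nhds h2U))
  have hd0 : 0 < dist z1 z2 := dist_pos.2 hne
  obtain ⟨r, hr, hrr0, hrd⟩ : ∃ r : ℝ, 0 < r ∧ r < r0 ∧ r < dist z1 z2 :=
    ⟨min r0 (dist z1 z2) / 2, by positivity,
      (half_lt_self (lt_min hr0 hd0)).trans_le (min_le_left _ _),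
      (half_lt_self (lt_min hr0 hd0)).trans_le (min_le_right _ _)⟩
  have hsub : closedBall z2 r ⊆ U := fun z hz =>
    (hb z (closedBall_subset_ball hrr0 hz)).2
  have hz1 : z1 ∉ closedBall z2 r := by
    rw [mem_closedBall]
    exact not_le.2 hrd
  have hcs : IsCompact (sphere z2 r) := isCompact_sphere z2 r
  obtain ⟨t0, ht0, hmin⟩ := hcs.exists_isMinOn (NormedSpace.sphere_nonempty.2 hr.le)
    (hgd.continuousOn.norm.mono (sphere_subset_closedBall.trans hsub))
  have hm : 0 < ‖f t0 - f z1‖ := by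
    rw [norm_pos_iff]
    refine (hb t0 (closedBall_subset_ball hrr0 (sphere_subset_closedBall ht0))).1 ?_
    rintro rfl
    rw [mem_sphere, dist_self] at ht0
    exact hr.ne ht0
  set m : ℝ := ‖f t0 - f z1‖ with hmdef
  have hK : IsCompact (closedBall z2 r ∪ {z1}) := (isCompact_closedBall z2 r).union isCompact_singleton
  have hKU : closedBall z2 r ∪ {z1} ⊆ U := union_subset hsub (singleton_subset_iff.2 h1U)
  have hunif := (tendstoLocallyUniformlyOn_iff_forall_isCompact hU).1 hlim _ hKU hK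
  obtain ⟨n, hn⟩ := (Metric.tendstoUniformlyOn_iff.1 hunif (m / 8) (by positivity)).exists
  have happ : ∀ z ∈ closedBall z2 r, ‖(F n z - F n z1) - (f z - f z1)‖ ≤ m / 4 := by
    intro z hz
    have h4 := hn z (Or.inl hz)
    have h5 := hn z1 (Or.inr rfl)
    rw [dist_eq_norm] at h4 h5
    have h6 : (F n z - F n z1) - (f z - f z1) = (f z1 - F n z1) - (f z - F n z) := by ring
    rw [h6]
    refine (norm_sub_le _ _).trans ?_
    linarith
  have hnz : ∀ z ∈ closedBall z2 r, F n z - F n z1 ≠ 0 := by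
    intro z hz h0
    have := hinj n (hsub hz) h1U (sub_eq_zero.1 h0)
    rw [this] at hz
    exact hz1 hz
  have hS : ∀ z ∈ sphere z2 r, 3 * m / 4 ≤ ‖F n z - F n z1‖ := by
    intro z hz
    have h4 := happ z (sphere_subset_closedBall hz)
    have h5 : m ≤ ‖f z - f z1‖ := hmin hz
    have h6 := norm_sub_norm_le (f z - f z1) (F n z - F n z1)
    rw [norm_sub_rev (f z - f z1) (F n z - F n z1)] at h6
    linarith
  have hd : DiffContOnCl ℂ (fun t => (F n t - F n z1)⁻¹) (ball z2 r) := by
    apply DifferentiableOn.diffContOnCl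
    rw [closure_ball z2 hr.ne']
    exact (((hF n).mono hsub).sub (differentiableOn_const _)).inv hnz
  have hC : ∀ z ∈ frontier (ball z2 r), ‖(F n z - F n z1)⁻¹‖ ≤ (3 * m / 4)⁻¹ := by
    intro z hz
    rw [frontier_ball z2 hr.ne'] at hz
    rw [norm_inv]
    exact inv_anti₀ (by positivity) (hS z hz)
  have h4 : ‖(F n z2 - F n z1)⁻¹‖ ≤ (3 * m / 4)⁻¹ :=
    Complex.norm_le_of_forall_mem_frontier_norm_le isBounded_ball hd hC
      (subset_closure (mem_ball_self hr))
  have h5 : ‖F n z2 - F n z1‖ ≤ m / 4 := by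
    have h6 := happ z2 (mem_closedBall_self hr.le)
    rwa [← hfe, sub_self, sub_zero] at h6
  have h7 : 0 < ‖F n z2 - F n z1‖ := norm_pos_iff.2 (hnz z2 (mem_closedBall_self hr.le))
  rw [norm_inv] at h4
  have h9 := (inv_le_inv₀ h7 (show 0 < 3 * m / 4 by positivity)).1 h4
  linarith

end Pool.Agent.Helper36.QD
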