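import Pool.Agent.Helper58.QD.StG

/-! # Module Avj of project QD: averages of differences -/

set_option autoImplicit false
set_option maxSynthPendingDepth 3

open Set Filter Topology MeasureTheory
open scoped ContDiff ENNReal

noncomputable section

namespace Pool.Agent.Helper36.QD

open Helper62.LH Helper62.DSH Helper58.QD

/-- the weight -/
private def Wm {X : Type*} (B : Set (X × X)) (v : X → ℝ≥0∞) (p : X × X) : ℝ≥0∞ :=
  B.indicator (fun p => (v p.1)⁻¹) p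

private lemma meas_v {X : Type*} [MeasurableSpace X] (μ : Measure X) [SFinite μ]
    (B : Set (X × X)) (hB : MeasurableSet B) (v : X → ℝ≥0∞)
    (hv : ∀ x, v x = μ {y | (x, y) ∈ B}) : Measurable v := by
  have h := measurable_measure_prodMk_left (ν := μ) hB
  have e : v = fun x => μ (Prod.mk x ⁻¹' B) := funext hv
  rw [e]; exact h

private lemma meas_W {X : Type*} [MeasurableSpace X] {B : Set (X × X)} (hB : MeasurableSet B)
    {v : X → ℝ≥0∞} (hv : Measurable v) : Measurable (Wm B v) :=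
  Measurable.indicator (hv.comp measurable_fst).inv hB

private lemma conv {X : Type*} [MeasurableSpace X] (μ : Measure X) [SFinite μ]
    (B : Set (X × X)) (hB : MeasurableSet B) (v : X → ℝ≥0∞) (hvm : Measurable v)
    (Φ : X × X → ℝ≥0∞) (hΦ : Measurable Φ) :
    ∫⁻ x, (v x)⁻¹ * (∫⁻ y in {y | (x, y) ∈ B}, Φ (x, y) ∂μ) ∂μ =
      ∫⁻ p, Wm B v p * Φ p ∂(μ.prod μ) := by
  have hm : Measurable (fun p : X × X => Wm B v p * Φ p) := (meas_W hB hvm).mul hΦ
  rw [lintegral_prod _ hm.aemeasurable]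
  refine lintegral_congr fun x => ?_
  have hBx : MeasurableSet {y | (x, y) ∈ B} := measurable_prodMk_left hB
  have hΦx : Measurable (fun y => Φ (x, y)) := hΦ.comp measurable_prodMk_left
  rw [← lintegral_const_mul _ hΦx, ← lintegral_indicator hBx]
  refine lintegral_congr fun y => ?_
  by_cases hy : (x, y) ∈ B
  · rw [indicator_of_mem (show y ∈ {y | (x, y) ∈ B} from hy), Wm, indicator_of_mem hy]
  · rw [indicator_of_notMem (show y ∉ {y | (x, y) ∈ B} from hy), Wm, indicator_of_notMem hy, zero_mul]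

private lemma W_swap {X : Type*} {B : Set (X × X)} (hsym : ∀ x y, (x, y) ∈ B → (y, x) ∈ B)
    {v : X → ℝ≥0∞} {C : ℝ≥0∞} (h0 : ∀ x, v x ≠ 0) (ht : ∀ x, v x ≠ ⊤)
    (hC : ∀ x y, (x, y) ∈ B → v y ≤ C * v x) (p : X × X) : Wm B v p.swap ≤ C * Wm B v p := by
  obtain ⟨x, y⟩ := p
  by_cases hp : (x, y) ∈ B
  · have hp' : (y, x) ∈ B := hsym _ _ hp
    have hp'' : Prod.swap (x, y) ∈ B := hp'
    rw [Wm, Wm, indicator_of_mem hp, indicator_of_mem hp'']
    show (v y)⁻¹ ≤ C * (v x)⁻¹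
    calc (v y)⁻¹ = (v y)⁻¹ * (v x * (v x)⁻¹) := by
          rw [ENNReal.mul_inv_cancel (h0 x) (ht x), mul_one]
      _ ≤ (v y)⁻¹ * (C * v y * (v x)⁻¹) := by
          gcongr
          exact hC _ _ hp'
      _ = C * (v x)⁻¹ * (v y * (v y)⁻¹) := by ring
      _ = C * (v x)⁻¹ := by rw [ENNReal.mul_inv_cancel (h0 y) (ht y), mul_one]
  · have hp' : Prod.swap (x, y) ∉ B := fun h => hp (hsym _ _ h)
    rw [Wm, indicator_of_notMem hp']
    exact zero_le

private lemma J_swap {X : Type*} [MeasurableSpace X] (μ : Measure X) [SFinite μ]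
    {B : Set (X × X)} (hB : MeasurableSet B) (hsym : ∀ x y, (x, y) ∈ B → (y, x) ∈ B)
    {v : X → ℝ≥0∞} (hvm : Measurable v) {C : ℝ≥0∞} (h0 : ∀ x, v x ≠ 0) (ht : ∀ x, v x ≠ ⊤)
    (hC : ∀ x y, (x, y) ∈ B → v y ≤ C * v x) (Φ : X × X → ℝ≥0∞) (hΦ : Measurable Φ) :
    ∫⁻ p, Wm B v p * Φ p ∂(μ.prod μ) ≤ C * ∫⁻ p, Wm B v p * Φ p.swap ∂(μ.prod μ) := by
  have h1 : ∫⁻ p, Wm B v p * Φ p ∂(μ.prod μ) =
      ∫⁻ p, Wm B v p.swap * Φ p.swap ∂(μ.prod μ) :=
    (lintegral_prod_swap (fun p => Wm B v p * Φ p)).symm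
  have hm : Measurable (fun p : X × X => Wm B v p * Φ p.swap) :=
    (meas_W hB hvm).mul (hΦ.comp measurable_swap)
  rw [h1, ← lintegral_const_mul _ hm]
  refine lintegral_mono fun p => ?_
  rw [← mul_assoc]
  gcongr
  exact W_swap hsym h0 ht hC p

private lemma J_fst {X : Type*} [MeasurableSpace X] (μ : Measure X) [SFinite μ]
    {B : Set (X × X)} (hB : MeasurableSet B) {v : X → ℝ≥0∞}
    (hv : ∀ x, v x = μ {y | (x, y) ∈ B}) (hvm : Measurable v)
    (h0 : ∀ x, v x ≠ 0) (ht : ∀ x, v x ≠ ⊤) (H : X → ℝ≥0∞) (hH : Measurable H) :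
    ∫⁻ p, Wm B v p * H p.1 ∂(μ.prod μ) = ∫⁻ x, H x ∂μ := by
  rw [← conv μ B hB v hvm (fun p => H p.1) (hH.comp measurable_fst)]
  refine lintegral_congr fun x => ?_
  show (v x)⁻¹ * (∫⁻ y in {y | (x, y) ∈ B}, H x ∂μ) = H x
  rw [setLIntegral_const, ← hv, mul_comm, mul_assoc, ENNReal.mul_inv_cancel (h0 x) (ht x), mul_one]

private lemma J_bound {X : Type*} [MeasurableSpace X] (μ : Measure X) [SFinite μ]
    {B : Set (X × X)} (hB : MeasurableSet B) (hsym : ∀ x y, (x, y) ∈ B → (y, x) ∈ B)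
    {v : X → ℝ≥0∞} (hv : ∀ x, v x = μ {y | (x, y) ∈ B}) (hvm : Measurable v) {C c : ℝ≥0∞}
    (h0 : ∀ x, v x ≠ 0) (ht : ∀ x, v x ≠ ⊤) (hC : ∀ x y, (x, y) ∈ B → v y ≤ C * v x)
    (H : X → ℝ≥0∞) (hH : Measurable H) (Φ : X × X → ℝ≥0∞) (hΦ : Measurable Φ)
    (h : ∀ x, ∫⁻ y in {y | (x, y) ∈ B}, Φ (x, y) ∂μ ≤ c * ∫⁻ y in {y | (x, y) ∈ B}, H y ∂μ) :
    ∫⁻ p, Wm B v p * Φ p ∂(μ.prod μ) ≤ c * (C * ∫⁻ x, H x ∂μ) := by
  have hm2 : Measurable (fun p : X × X => Wm B v p * H p.2) :=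
    (meas_W hB hvm).mul (hH.comp measurable_snd)
  calc ∫⁻ p, Wm B v p * Φ p ∂(μ.prod μ)
      = ∫⁻ x, (v x)⁻¹ * (∫⁻ y in {y | (x, y) ∈ B}, Φ (x, y) ∂μ) ∂μ := (conv μ B hB v hvm Φ hΦ).symm
    _ ≤ ∫⁻ x, c * ((v x)⁻¹ * (∫⁻ y in {y | (x, y) ∈ B}, H y ∂μ)) ∂μ := by
        refine lintegral_mono fun x => ?_
        calc (v x)⁻¹ * (∫⁻ y in {y | (x, y) ∈ B}, Φ (x, y) ∂μ)
            ≤ (v x)⁻¹ * (c * ∫⁻ y in {y | (x, y) ∈ B}, H y ∂μ) := by gcongr; exact h x
          _ = c * ((v x)⁻¹ * (∫⁻ y in {y | (x, y) ∈ B}, H y ∂μ)) := by ring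
    _ = c * ∫⁻ p, Wm B v p * H p.2 ∂(μ.prod μ) := by
        rw [← conv μ B hB v hvm (fun p => H p.2) (hH.comp measurable_snd), lintegral_const_mul]
        have hm : Measurable (fun x => ∫⁻ y, Wm B v (x, y) * H y ∂μ) := hm2.lintegral_prod_right'
        have e : (fun x => (v x)⁻¹ * (∫⁻ y in {y | (x, y) ∈ B}, H y ∂μ)) =
            fun x => ∫⁻ y, Wm B v (x, y) * H y ∂μ := by
          funext x
          have hBx : MeasurableSet {y | (x, y) ∈ B} := measurable_prodMk_left hB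
          rw [← lintegral_const_mul _ hH, ← lintegral_indicator hBx]
          refine lintegral_congr fun y => ?_
          by_cases hy : (x, y) ∈ B
          · rw [indicator_of_mem (show y ∈ {y | (x, y) ∈ B} from hy), Wm, indicator_of_mem hy]
          · rw [indicator_of_notMem (show y ∉ {y | (x, y) ∈ B} from hy), Wm, indicator_of_notMem hy,
              zero_mul]
        rw [e]; exact hm
    _ ≤ c * (C * ∫⁻ p, Wm B v p * H p.1 ∂(μ.prod μ)) := by
        gcongr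
        exact J_swap μ hB hsym hvm h0 ht hC (fun p => H p.2) (hH.comp measurable_snd)
    _ = c * (C * ∫⁻ x, H x ∂μ) := by rw [J_fst μ hB hv hvm h0 ht H hH]

private lemma abs_AVJ {X : Type*} [MeasurableSpace X] (μ : Measure X) [SFinite μ]
    {B : Set (X × X)} (hB : MeasurableSet B) (hsym : ∀ x y, (x, y) ∈ B → (y, x) ∈ B)
    {v : X → ℝ≥0∞} (hv : ∀ x, v x = μ {y | (x, y) ∈ B}) {C c : ℝ≥0∞} (hC1 : 1 ≤ C)
    (h0 : ∀ x, v x ≠ 0) (ht : ∀ x, v x ≠ ⊤) (hC : ∀ x y, (x, y) ∈ B → v y ≤ C * v x)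
    (H : X → ℝ≥0∞) (hH : Measurable H) (F : ℝ × X × X → ℝ≥0∞) (hF : Measurable F)
    (T : Set ℝ) (hT : MeasurableSet T) (hT1 : volume T ≤ 1)
    (h : ∀ t ∈ T, (∀ x, ∫⁻ y in {y | (x, y) ∈ B}, F (t, x, y) ∂μ ≤
        c * ∫⁻ y in {y | (x, y) ∈ B}, H y ∂μ) ∨
      (∀ y, ∫⁻ x in {x | (y, x) ∈ B}, F (t, x, y) ∂μ ≤
        c * ∫⁻ x in {x | (y, x) ∈ B}, H x ∂μ)) :
    ∫⁻ x, (v x)⁻¹ * (∫⁻ y in {y | (x, y) ∈ B}, (∫⁻ t in T, F (t, x, y)) ∂μ) ∂μ ≤
      C * (c * (C * ∫⁻ x, H x ∂μ)) := by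
  have hvm := meas_v μ B hB v hv
  have hW := meas_W hB hvm
  have hFt : ∀ t, Measurable (fun p : X × X => F (t, p)) := fun t => hF.comp measurable_prodMk_left
  have hG : Measurable (fun p : X × X => ∫⁻ t in T, F (t, p)) := by
    have h1 : Measurable (fun q : (X × X) × ℝ => F (q.2, q.1)) := hF.comp measurable_swap
    exact h1.lintegral_prod_right'
  have hone : ∀ t ∈ T, ∫⁻ p, Wm B v p * F (t, p) ∂(μ.prod μ) ≤ C * (c * (C * ∫⁻ x, H x ∂μ)) := by
    intro t htT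
    rcases h t htT with h | h
    · refine (J_bound μ hB hsym hv hvm h0 ht hC H hH (fun p => F (t, p)) (hFt t) h).trans ?_
      exact le_mul_of_one_le_left zero_le hC1
    · refine (J_swap μ hB hsym hvm h0 ht hC (fun p => F (t, p)) (hFt t)).trans ?_
      gcongr
      exact J_bound μ hB hsym hv hvm h0 ht hC H hH (fun p => F (t, p.swap))
        ((hFt t).comp measurable_swap) h
  calc ∫⁻ x, (v x)⁻¹ * (∫⁻ y in {y | (x, y) ∈ B}, (∫⁻ t in T, F (t, x, y)) ∂μ) ∂μ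
      = ∫⁻ p, Wm B v p * (∫⁻ t in T, F (t, p)) ∂(μ.prod μ) :=
        conv μ B hB v hvm (fun p => ∫⁻ t in T, F (t, p)) hG
    _ = ∫⁻ p, (∫⁻ t in T, Wm B v p * F (t, p)) ∂(μ.prod μ) := by
        refine lintegral_congr fun p => ?_
        rw [lintegral_const_mul]
        exact hF.comp measurable_prodMk_right
    _ = ∫⁻ t in T, (∫⁻ p, Wm B v p * F (t, p) ∂(μ.prod μ)) := by
        rw [lintegral_lintegral_swap]
        apply Measurable.aemeasurable
        have h2 : Measurable (fun q : (X × X) × ℝ => Wm B v q.1 * F (q.2, q.1)) :=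
          (hW.comp measurable_fst).mul (hF.comp measurable_swap)
        exact h2
    _ ≤ ∫⁻ t in T, C * (c * (C * ∫⁻ x, H x ∂μ)) := setLIntegral_mono' hT hone
    _ ≤ C * (c * (C * ∫⁻ x, H x ∂μ)) := by
        rw [setLIntegral_const]
        exact mul_le_of_le_one_right zero_le hT1

private lemma meas_in {X : Type*} [MeasurableSpace X] (F : ℝ × X × X → ℝ≥0∞) (hF : Measurable F)
    (T : Set ℝ) (x : X) : Measurable (fun y => ∫⁻ t in T, F (t, x, y)) := by
  have h0 : Measurable (fun q : X × ℝ => ((q.2, x, q.1) : ℝ × X × X)) :=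
    measurable_snd.prodMk (measurable_const.prodMk measurable_fst)
  have h1 : Measurable (fun q : X × ℝ => F (q.2, x, q.1)) := hF.comp h0
  exact h1.lintegral_prod_right'

private lemma symm_G {n : ℕ} {g : E n → Bl n} (hs : ∀ x y, dg g x y = dg g y x) (h : E n → ℝ) (t : ℝ)
    (x y : E n) : HS g h t x y = HS g h (1 - t) y x := by
  have : Gt g t x y = Gt g (1 - t) y x := by
    ext z
    simp only [Gt, mem_ofPred_eq]
    rw [hs y z, hs y x, hs z x, sub_sub_cancel]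
    exact and_comm
  unfold HS
  rw [this]

theorem hAvj (hMet : StMet) (hDlc : StDlc) (hUsc : StUsc) (hSga : StSga) (hUt : StUt)
    (hBal : SBal) (hBgv : SBgv) (hGrd : SGrd) : SAvj := by
  intro n g Γ hg hΓ hc hS z hz r hr
  obtain ⟨-, -, hnn, -, hsym, htri⟩ := hMet n g hg
  obtain ⟨-, -, hcont⟩ := hDlc n g hg
  have hh : Continuous (gs g z) := by
    have hd : Continuous (fderiv ℝ z) := hz.1.continuous_fderiv (by simp)
    exact (hUt n g hg).1 (fderiv ℝ z) (fderiv ℝ z) hd hd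
  have hF := (hUsc n g hg hc (gs g z) hh).1
  have : SFinite (mg g) := by unfold mg; infer_instance
  have hopen : IsOpen {p : E n × E n | dg g p.1 p.2 < r} := isOpen_lt hcont continuous_const
  have hB : MeasurableSet {p : E n × E n | dg g p.1 p.2 < r} := hopen.measurableSet
  have hSgaB : ∀ (t : ℝ), t ∈ Icc (1 / 2 : ℝ) 1 → ∀ x, ∫⁻ y in Ba g x r, HS g (gs g z) t x y ∂(mg g) ≤
      2 ^ n * ∫⁻ y in Ba g x r, ENNReal.ofReal (gs g z y) ∂(mg g) := by
    intro t ht x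
    refine hSga n g Γ hg hΓ hc hS (gs g z) hh x t ht (Ba g x r)
      ((hBal n g Γ hg hΓ hc x).1 r).measurableSet ?_
    intro y hy w hw
    have h1 : dg g x w = t * dg g x y := hw.1
    have h2 : dg g x y < r := hy
    show dg g x w < r
    rw [h1]
    nlinarith [hnn x y, ht.2, ht.1]
  have key := abs_AVJ (mg g) hB (fun x y hxy => by
      show dg g y x < r
      rw [hsym y x]; exact hxy) (v := fun x => mg g (Ba g x r)) (fun x => rfl)
    (C := 2 ^ n) (c := 2 ^ n) (one_le_pow₀ (by norm_num))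
    (fun x h => by
      have := (hBal n g Γ hg hΓ hc x).2.2.1 r hr
      rw [vb, h] at this
      simp at this)
    (fun x => (hBal n g Γ hg hΓ hc x).2.1 r)
    (fun x y hxy => by
      have hxy' : dg g x y < r := hxy
      have hsub : Ba g y r ⊆ Ba g x (2 * r) := by
        intro w hw
        have hw' : dg g y w < r := hw
        show dg g x w < 2 * r
        linarith [htri x y w]
      have h2 := (hBgv n g Γ hg hΓ hc hS).1 x (2 * r) (1 / 2) (by norm_num) (by norm_num)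
      have e1 : (1 : ℝ) / 2 * (2 * r) = r := by ring
      have e2 : ENNReal.ofReal ((1 / (1 / 2 : ℝ)) ^ n) = 2 ^ n := by
        rw [one_div_one_div, ENNReal.ofReal_pow (by norm_num)]
        norm_num
      rw [e1, e2] at h2
      exact (measure_mono hsub).trans h2)
    (fun x => ENNReal.ofReal (gs g z x)) (hh.measurable.ennreal_ofReal)
    (fun q : ℝ × E n × E n => HS g (gs g z) q.1 q.2.1 q.2.2) hF (Icc (0 : ℝ) 1) measurableSet_Icc
    (by rw [Real.volume_Icc]; norm_num)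
    (by
      intro t ht
      rcases le_total (1 / 2) t with h | h
      · left
        exact fun x => hSgaB t ⟨h, ht.2⟩ x
      · right
        intro y
        have h2 : ∀ x, HS g (gs g z) t x y = HS g (gs g z) (1 - t) y x := fun x =>
          symm_G hsym (gs g z) t x y
        have ht' : 1 - t ∈ Icc (1 / 2 : ℝ) 1 := ⟨by linarith, by linarith [ht.1]⟩
        have h3 := hSgaB (1 - t) ht' y
        simp only [h2]
        exact h3)
  have hstep : ∀ x, ∫⁻ y in Ba g x r, ENNReal.ofReal ((z x - z y) ^ 2) ∂(mg g) ≤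
      ENNReal.ofReal (r ^ 2) * ∫⁻ y in Ba g x r, (∫⁻ t in Icc (0 : ℝ) 1, HS g (gs g z) t x y) ∂(mg g) := by
    intro x
    have hm : Measurable (fun y => ∫⁻ t in Icc (0 : ℝ) 1, HS g (gs g z) t x y) :=
      meas_in (fun q : ℝ × E n × E n => HS g (gs g z) q.1 q.2.1 q.2.2) hF (Icc (0 : ℝ) 1) x
    rw [← lintegral_const_mul _ hm]
    refine setLIntegral_mono' ((hBal n g Γ hg hΓ hc x).1 r).measurableSet ?_
    intro y hy
    have hy' : dg g x y < r := hy
    refine (hGrd n g Γ hg hΓ hc z hz.1 x y).trans ?_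
    gcongr
    exact hnn x y
  calc ∫⁻ x, (mg g (Ba g x r))⁻¹ * (∫⁻ y in Ba g x r, ENNReal.ofReal ((z x - z y) ^ 2) ∂(mg g)) ∂(mg g)
      ≤ ∫⁻ x, ENNReal.ofReal (r ^ 2) * ((mg g (Ba g x r))⁻¹ *
          ∫⁻ y in Ba g x r, (∫⁻ t in Icc (0 : ℝ) 1, HS g (gs g z) t x y) ∂(mg g)) ∂(mg g) := by
        refine lintegral_mono fun x => ?_
        calc (mg g (Ba g x r))⁻¹ * (∫⁻ y in Ba g x r, ENNReal.ofReal ((z x - z y) ^ 2) ∂(mg g))
            ≤ (mg g (Ba g x r))⁻¹ * (ENNReal.ofReal (r ^ 2) *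
              ∫⁻ y in Ba g x r, (∫⁻ t in Icc (0 : ℝ) 1, HS g (gs g z) t x y) ∂(mg g)) :=
              mul_le_mul' le_rfl (hstep x)
          _ = _ := mul_left_comm _ _ _
    _ = ENNReal.ofReal (r ^ 2) * ∫⁻ x, ((mg g (Ba g x r))⁻¹ *
          ∫⁻ y in Ba g x r, (∫⁻ t in Icc (0 : ℝ) 1, HS g (gs g z) t x y) ∂(mg g)) ∂(mg g) :=
        lintegral_const_mul' _ _ ENNReal.ofReal_ne_top
    _ ≤ ENNReal.ofReal (r ^ 2) * (2 ^ n * (2 ^ n * (2 ^ n * ∫⁻ x, ENNReal.ofReal (gs g z x) ∂(mg g)))) := by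
        exact mul_le_mul' le_rfl key
    _ = ENNReal.ofReal (8 ^ n * r ^ 2) * ∫⁻ x, ENNReal.ofReal (gs g z x) ∂(mg g) := by
        have e8 : ENNReal.ofReal (8 ^ n) = 2 ^ n * 2 ^ n * 2 ^ n := by
          rw [ENNReal.ofReal_pow (by norm_num), ← mul_pow, ← mul_pow]
          norm_num
        rw [ENNReal.ofReal_mul (by positivity), e8]
        ring

end Pool.Agent.Helper36.QD
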